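import Pool.Agent.MP_fcd29e_an.H11.CS

/-!
The Veronese–Segre map: injectivity, immersion, and the quadrics that cut out its tangent space.
-/

set_option autoImplicit false

open Pool.Agent.MP_fcd29e_an.H11

namespace Pool.Agent.MP_fcd29e_an.H9

section

variable {α ε : Type} [Fintype α] [Fintype ε]

theorem vs_an (D : ℕ) (q : (α → ℂ) × (ε → ℂ)) : AnalyticAt ℂ (vs (α := α) (ε := ε) D) q := by
  refine AnalyticAt.pi fun J => ?_
  refine AnalyticAt.mul (Finset.analyticAt_fun_prod _ fun i _ => ?_) ?_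
  · exact ((ContinuousLinearMap.proj (R := ℂ) (φ := fun _ : α => ℂ) (J.1 i)).comp
      (ContinuousLinearMap.fst ℂ (α → ℂ) (ε → ℂ))).analyticAt q
  · exact ((ContinuousLinearMap.proj (R := ℂ) (φ := fun _ : ε => ℂ) J.2).comp
      (ContinuousLinearMap.snd ℂ (α → ℂ) (ε → ℂ))).analyticAt q

theorem vs_has (D : ℕ) (q : (α → ℂ) × (ε → ℂ)) :
    HasFDerivAt (vs (α := α) (ε := ε) D) (fderiv ℂ (vs D) q) q :=
  (vs_an D q).differentiableAt.hasFDerivAt

theorem has1 (a : α) (q : (α → ℂ) × (ε → ℂ)) :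
    HasFDerivAt (fun q : (α → ℂ) × (ε → ℂ) => q.1 a)
      ((ContinuousLinearMap.proj (R := ℂ) (φ := fun _ : α => ℂ) a).comp
        (ContinuousLinearMap.fst ℂ (α → ℂ) (ε → ℂ))) q :=
  ((ContinuousLinearMap.proj (R := ℂ) (φ := fun _ : α => ℂ) a).comp
    (ContinuousLinearMap.fst ℂ (α → ℂ) (ε → ℂ))).hasFDerivAt

theorem has2 (e : ε) (q : (α → ℂ) × (ε → ℂ)) :
    HasFDerivAt (fun q : (α → ℂ) × (ε → ℂ) => q.2 e)
      ((ContinuousLinearMap.proj (R := ℂ) (φ := fun _ : ε => ℂ) e).comp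
        (ContinuousLinearMap.snd ℂ (α → ℂ) (ε → ℂ))) q :=
  ((ContinuousLinearMap.proj (R := ℂ) (φ := fun _ : ε => ℂ) e).comp
    (ContinuousLinearMap.snd ℂ (α → ℂ) (ε → ℂ))).hasFDerivAt

theorem hasL (D : ℕ) (L : ((Fin D → α) × ε → ℂ) →L[ℂ] ℂ) (q : (α → ℂ) × (ε → ℂ)) :
    HasFDerivAt (fun q : (α → ℂ) × (ε → ℂ) => L (vs D q)) (L.comp (fderiv ℂ (vs D) q)) q :=
  L.hasFDerivAt.comp q (vs_has D q)

theorem dvs (D : ℕ) (q dq : (α → ℂ) × (ε → ℂ)) (J : (Fin D → α) × ε) :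
    fderiv ℂ (vs D) q dq J =
      (∑ i, (∏ j ∈ Finset.univ.erase i, q.1 (J.1 j)) * dq.1 (J.1 i)) * q.2 J.2
        + (∏ i, q.1 (J.1 i)) * dq.2 J.2 := by
  have h1 := hasL D (ContinuousLinearMap.proj J) q
  have h2 := (HasFDerivAt.finsetProd (u := Finset.univ) fun i _ => has1 (J.1 i) q).mul
    (has2 J.2 q)
  have h3 := congrArg (fun T => T dq) (h1.unique h2)
  simp only [ContinuousLinearMap.comp_apply, ContinuousLinearMap.proj_apply,
    _root_.add_apply, _root_.smul_apply, _root_.sum_apply,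
    ContinuousLinearMap.coe_fst', ContinuousLinearMap.coe_snd', smul_eq_mul] at h3
  rw [h3]
  ring

omit [Fintype α] in
theorem prod_upd {D : ℕ} (P : α → ℂ) (I : Fin D → α) (i : Fin D) (a : α) :
    ∏ j, P (Function.update I i a j) = P a * ∏ j ∈ Finset.univ.erase i, P (I j) := by
  rw [← Finset.mul_prod_erase Finset.univ _ (Finset.mem_univ i), Function.update_self]
  congr 1
  exact Finset.prod_congr rfl fun j hj => by
    rw [Function.update_of_ne (Finset.ne_of_mem_erase hj)]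

omit [Fintype α] in
theorem prod_upd0 {D : ℕ} (P : α → ℂ) (a₀ a : α) :
    ∏ j, P (Function.update (fun _ : Fin (D + 1) => a₀) 0 a j) = P a * P a₀ ^ D := by
  rw [prod_upd]
  simp

omit [Fintype α] [Fintype ε] in
theorem vs_const (D : ℕ) (q : (α → ℂ) × (ε → ℂ)) (a₀ : α) (e : ε) :
    vs D q (fun _ => a₀, e) = q.1 a₀ ^ D * q.2 e := by
  simp [vs]

omit [Fintype α] [Fintype ε] in
theorem vs_upd0 (D : ℕ) (q : (α → ℂ) × (ε → ℂ)) (a₀ a : α) (e : ε) :
    vs (D + 1) q (Function.update (fun _ => a₀) 0 a, e) = q.1 a * q.1 a₀ ^ D * q.2 e := by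
  simp only [vs]
  rw [prod_upd0]

theorem dmul (D : ℕ) (q dq : (α → ℂ) × (ε → ℂ)) (J : (Fin D → α) × ε) (a : α) :
    fderiv ℂ (fun q : (α → ℂ) × (ε → ℂ) => vs D q J * q.1 a) q dq =
      vs D q J * dq.1 a + q.1 a * fderiv ℂ (vs D) q dq J := by
  have h := ((hasL D (ContinuousLinearMap.proj J) q).mul (has1 a q)).fderiv
  refine (congrArg (fun T => T dq) h).trans ?_
  simp

theorem svl_eq (D : ℕ) (hD : 1 ≤ D) (q q' : (α → ℂ) × (ε → ℂ)) (h1 : q.1 ≠ 0) (h2 : q.2 ≠ 0) :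
    vs D q ≠ 0 ∧ (vs D q = vs D q' → ∃ c : ℂ, c ≠ 0 ∧ q.1 = c • q'.1) ∧
      AnalyticAt ℂ (vs (α := α) (ε := ε) D) q ∧
      (∀ dq, fderiv ℂ (vs D) q dq = 0 → ∃ a : ℂ, dq.1 = a • q.1) ∧
      (∀ y, fderiv ℂ (vs D) q (0, y) = vs D (q.1, y)) ∧
      fderiv ℂ (vs D) q (q.1, 0) = (D : ℂ) • vs D q := by
  obtain ⟨a₀, ha⟩ := Function.ne_iff.mp h1
  obtain ⟨e₀, he⟩ := Function.ne_iff.mp h2
  simp only [Pi.zero_apply] at ha he
  obtain ⟨D, rfl⟩ : ∃ D', D = D' + 1 := ⟨D - 1, by omega⟩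
  have hz : q.1 a₀ ^ D * q.2 e₀ ≠ 0 := mul_ne_zero (pow_ne_zero _ ha) he
  refine ⟨?_, ?_, vs_an _ q, ?_, ?_, ?_⟩
  · intro h
    have := congrFun h (fun _ => a₀, e₀)
    rw [vs_const] at this
    exact mul_ne_zero (pow_ne_zero _ ha) he this
  · intro h
    have h3 : ∀ a, q.1 a * (q.1 a₀ ^ D * q.2 e₀) = q'.1 a * (q'.1 a₀ ^ D * q'.2 e₀) := by
      intro a
      have := congrFun h (Function.update (fun _ => a₀) 0 a, e₀)
      rw [vs_upd0, vs_upd0] at this
      linear_combination this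
    refine ⟨(q'.1 a₀ ^ D * q'.2 e₀) / (q.1 a₀ ^ D * q.2 e₀), ?_, ?_⟩
    · refine div_ne_zero (fun h0 => ?_) hz
      have := h3 a₀
      rw [h0, mul_zero] at this
      exact mul_ne_zero ha hz this
    · funext a
      rw [Pi.smul_apply, smul_eq_mul, div_mul_eq_mul_div, eq_div_iff hz, h3 a]
      ring
  · intro dq hdq
    refine ⟨dq.1 a₀ / q.1 a₀, funext fun a => ?_⟩
    have h3 : (fun q : (α → ℂ) × (ε → ℂ) =>
        vs (D + 1) q (Function.update (fun _ => a₀) 0 a, e₀) * q.1 a₀)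
        = fun q => vs (D + 1) q (fun _ => a₀, e₀) * q.1 a := by
      funext p
      rw [vs_upd0, vs_const]
      ring
    have h4 := dmul (D + 1) q dq (Function.update (fun _ => a₀) 0 a, e₀) a₀
    rw [h3, dmul, hdq, vs_upd0, vs_const] at h4
    simp only [Pi.zero_apply, mul_zero, add_zero] at h4
    rw [Pi.smul_apply, smul_eq_mul, div_mul_eq_mul_div, eq_div_iff ha]
    refine mul_left_cancel₀ hz ?_
    linear_combination h4
  · intro y
    funext J
    rw [dvs]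
    simp [vs]
  · funext J
    rw [dvs]
    have : ∀ i : Fin (D + 1), (∏ j ∈ Finset.univ.erase i, q.1 (J.1 j)) * q.1 (J.1 i)
        = ∏ j, q.1 (J.1 j) := fun i =>
      Finset.prod_erase_mul Finset.univ (fun j => q.1 (J.1 j)) (Finset.mem_univ i)
    simp only [this, Finset.sum_const, Finset.card_univ, Fintype.card_fin, nsmul_eq_mul,
      Pi.zero_apply, mul_zero, add_zero, Pi.smul_apply, smul_eq_mul, vs]
    ring

/-- A quadric through the whole image annihilates the tangent space. -/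
theorem quad_tangent (D : ℕ) (Q : ((Fin D → α) × ε → ℂ) →L[ℂ] ((Fin D → α) × ε → ℂ) →L[ℂ] ℂ)
    (hQ : ∀ q, Q (vs D q) (vs D q) = 0) (q dq : (α → ℂ) × (ε → ℂ)) :
    Q (vs D q) (fderiv ℂ (vs D) q dq) + Q (fderiv ℂ (vs D) q dq) (vs D q) = 0 := by
  have h1 := (Q.hasFDerivAt.comp q (vs_has D q)).clm_apply (vs_has D q)
  have h2 : HasFDerivAt (fun p : (α → ℂ) × (ε → ℂ) => (⇑Q ∘ vs D) p (vs D p))
      (0 : ((α → ℂ) × (ε → ℂ)) →L[ℂ] ℂ) q := by
    have : (fun p : (α → ℂ) × (ε → ℂ) => (⇑Q ∘ vs D) p (vs D p)) = fun _ => 0 := funext hQ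
    rw [this]
    exact hasFDerivAt_const _ _
  have h3 := congrArg (fun T => T dq) (h1.unique h2)
  simpa using h3

omit [Fintype α] [Fintype ε] in
/-- Binomial quadrics determine a vector from few coordinates. -/
theorem kill (D : ℕ) (q : (α → ℂ) × (ε → ℂ)) (a₀ : α) (e₀ : ε) (ha : q.1 a₀ ≠ 0) (he : q.2 e₀ ≠ 0)
    (w : (Fin (D + 1) → α) × ε → ℂ)
    (hw : ∀ Q : ((Fin (D + 1) → α) × ε → ℂ) →L[ℂ] ((Fin (D + 1) → α) × ε → ℂ) →L[ℂ] ℂ,
      (∀ p, Q (vs (D + 1) p) (vs (D + 1) p) = 0) → Q (vs (D + 1) q) w + Q w (vs (D + 1) q) = 0)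
    (h1 : ∀ e, w (fun _ => a₀, e) = 0) (h2 : ∀ a, w (Function.update (fun _ => a₀) 0 a, e₀) = 0) :
    w = 0 := by
  classical
  have step : ∀ (I : Fin (D + 1) → α) (e : ε) (i : Fin (D + 1)),
      w (Function.update I i a₀, e) = 0 → w (I, e) = 0 := by
    intro I e i h0
    have h3 := hw
      ((ContinuousLinearMap.proj (R := ℂ) (φ := fun _ => ℂ) (I, e)).smulRight
          (ContinuousLinearMap.proj (R := ℂ) (φ := fun _ => ℂ) (fun _ => a₀, e₀)) -
        (ContinuousLinearMap.proj (R := ℂ) (φ := fun _ => ℂ) (Function.update I i a₀, e)).smulRight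
          (ContinuousLinearMap.proj (R := ℂ) (φ := fun _ => ℂ)
            (Function.update (fun _ => a₀) 0 (I i), e₀))) (by
        intro p
        simp only [_root_.sub_apply, ContinuousLinearMap.smulRight_apply,
          _root_.smul_apply, ContinuousLinearMap.proj_apply, smul_eq_mul]
        rw [vs_const, vs_upd0]
        simp only [vs]
        rw [prod_upd, ← Finset.mul_prod_erase Finset.univ (fun j => p.1 (I j)) (Finset.mem_univ i)]
        ring)
    simp only [_root_.sub_apply, ContinuousLinearMap.smulRight_apply,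
      _root_.smul_apply, ContinuousLinearMap.proj_apply, smul_eq_mul, h0, h1, h2,
      mul_zero, zero_mul, sub_zero, zero_add] at h3
    rw [vs_const] at h3
    exact (mul_eq_zero.mp h3).resolve_right (mul_ne_zero (pow_ne_zero _ ha) he)
  have main : ∀ (s : Finset (Fin (D + 1))) (I : Fin (D + 1) → α) (e : ε),
      (∀ i, i ∉ s → I i = a₀) → w (I, e) = 0 := by
    intro s
    induction s using Finset.induction_on with
    | empty =>
      intro I e hI
      have : I = fun _ => a₀ := funext fun i => hI i (Finset.notMem_empty i)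
      rw [this, h1]
    | insert i s _ ih =>
      intro I e hI
      refine step I e i (ih _ e fun j hj => ?_)
      by_cases hji : j = i
      · rw [hji, Function.update_self]
      · rw [Function.update_of_ne hji]
        exact hI j (by simp [hji, hj])
  funext J
  exact main Finset.univ J.1 J.2 fun i hi => absurd (Finset.mem_univ i) hi

omit [Fintype α] in
theorem mono_prod : ∀ (D : ℕ) (s : α →₀ ℕ), s.degree = D → ∃ I : Fin D → α, ∀ P : α → ℂ,
    MvPolynomial.eval P (MvPolynomial.monomial s 1) = ∏ i, P (I i) := by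
  classical
  intro D
  induction D with
  | zero =>
    intro s hs
    rw [Finsupp.degree_eq_zero_iff] at hs
    exact ⟨Fin.elim0, fun P => by simp [hs]⟩
  | succ D ih =>
    intro s hs
    have h0 : s ≠ 0 := by
      rintro rfl
      simp at hs
    obtain ⟨a, ha⟩ := Finsupp.ne_iff.mp h0
    have hle : Finsupp.single a 1 ≤ s := by
      rw [Finsupp.single_le_iff]
      exact Nat.one_le_iff_ne_zero.mpr ha
    obtain ⟨t, rfl⟩ := exists_add_of_le hle
    rw [map_add, Finsupp.degree_single] at hs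
    obtain ⟨I, hI⟩ := ih t (by omega)
    refine ⟨Fin.cons a I, fun P => ?_⟩
    have : (MvPolynomial.monomial (Finsupp.single a 1 + t) 1 : MvPolynomial α ℂ)
        = MvPolynomial.X a * MvPolynomial.monomial t 1 := by
      rw [MvPolynomial.X, MvPolynomial.monomial_mul, mul_one]
    rw [this, map_mul, hI, Fin.prod_univ_succ]
    simp

/-- The coordinates with a fixed first index. -/
noncomputable def slice {D : ℕ} (I : Fin D → α) : ((Fin D → α) × ε → ℂ) →L[ℂ] (ε → ℂ) :=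
  ContinuousLinearMap.pi fun e => ContinuousLinearMap.proj (R := ℂ) (φ := fun _ => ℂ) (I, e)

omit [Fintype α] [Fintype ε] in
theorem slice_vs {D : ℕ} (I : Fin D → α) (q : (α → ℂ) × (ε → ℂ)) :
    slice I (vs D q) = (∏ i, q.1 (I i)) • q.2 := rfl

omit [Fintype α] [Fintype ε] in
theorem lin_form {D : ℕ} (f : MvPolynomial α ℂ) (hf : f.IsHomogeneous D) (l : (ε → ℂ) →L[ℂ] ℂ) :
    ∃ L : ((Fin D → α) × ε → ℂ) →L[ℂ] ℂ, ∀ q, L (vs D q) = MvPolynomial.eval q.1 f * l q.2 := by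
  have h : ∀ s ∈ f.support, ∃ L : ((Fin D → α) × ε → ℂ) →L[ℂ] ℂ, ∀ q, L (vs D q) =
      MvPolynomial.eval q.1 (MvPolynomial.monomial s (f.coeff s)) * l q.2 := by
    intro s hs
    have hd : s.degree = D := by
      by_contra hne
      exact MvPolynomial.mem_support_iff.mp hs (hf.coeff_eq_zero hne)
    obtain ⟨I, hI⟩ := mono_prod D s hd
    refine ⟨f.coeff s • l.comp (slice I), fun q => ?_⟩
    have : (MvPolynomial.monomial s (f.coeff s) : MvPolynomial α ℂ)
        = MvPolynomial.C (f.coeff s) * MvPolynomial.monomial s 1 := by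
      rw [MvPolynomial.C_mul_monomial, mul_one]
    rw [this, map_mul, hI, MvPolynomial.eval_C, _root_.smul_apply,
      ContinuousLinearMap.comp_apply, slice_vs, map_smul, smul_eq_mul, smul_eq_mul, mul_assoc]
  choose! L hL using h
  refine ⟨∑ s ∈ f.support, L s, fun q => ?_⟩
  rw [_root_.sum_apply, Finset.sum_congr rfl fun s hs => hL s hs q, ← Finset.sum_mul,
    ← map_sum, ← f.as_sum]

theorem ev_diff (f : MvPolynomial α ℂ) (P : α → ℂ) :
    DifferentiableAt ℂ (fun P : α → ℂ => MvPolynomial.eval P f) P :=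
  (AnalyticOnNhd.eval_mvPolynomial f P (Set.mem_univ _)).differentiableAt

theorem ker_rel (D : ℕ) (S : Set ((α → ℂ) × (ε → ℂ))) (q₀ : (α → ℂ) × (ε → ℂ)) (hq : q₀ ∈ S)
    (a₀ : α) (e₀ : ε) (ha : q₀.1 a₀ ≠ 0) (he : q₀.2 e₀ ≠ 0) (dq : (α → ℂ) × (ε → ℂ))
    (hv : ∀ Q, Quad (vs D '' S) Q →
      Q (vs D q₀) (fderiv ℂ (vs D) q₀ dq) + Q (fderiv ℂ (vs D) q₀ dq) (vs D q₀) = 0)
    (d : ℕ) (hd : d ≤ D) (f₁ f₂ : MvPolynomial α ℂ) (h₁ : f₁.IsHomogeneous d)
    (h₂ : f₂.IsHomogeneous d) (l₁ l₂ : (ε → ℂ) →L[ℂ] ℂ)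
    (hS : ∀ q ∈ S, MvPolynomial.eval q.1 f₁ * l₁ q.2 = MvPolynomial.eval q.1 f₂ * l₂ q.2) :
    fderiv ℂ (fun q : (α → ℂ) × (ε → ℂ) =>
      MvPolynomial.eval q.1 f₁ * l₁ q.2 - MvPolynomial.eval q.1 f₂ * l₂ q.2) q₀ dq = 0 := by
  have hh : ∀ f : MvPolynomial α ℂ, f.IsHomogeneous d →
      (MvPolynomial.X a₀ ^ (D - d) * f).IsHomogeneous D := by
    intro f hf
    have := (MvPolynomial.isHomogeneous_X_pow (R := ℂ) a₀ (D - d)).mul hf
    rwa [Nat.sub_add_cancel hd] at this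
  obtain ⟨L₁, hL₁⟩ := lin_form _ (hh f₁ h₁) l₁
  obtain ⟨L₂, hL₂⟩ := lin_form _ (hh f₂ h₂) l₂
  set g : (α → ℂ) × (ε → ℂ) → ℂ := fun q =>
    MvPolynomial.eval q.1 f₁ * l₁ q.2 - MvPolynomial.eval q.1 f₂ * l₂ q.2 with hg
  have hL : ∀ q, (L₁ - L₂) (vs D q) = q.1 a₀ ^ (D - d) * g q := by
    intro q
    rw [_root_.sub_apply, hL₁, hL₂, hg]
    simp only [map_mul, map_pow, MvPolynomial.eval_X]
    ring
  have hg0 : ∀ q ∈ S, g q = 0 := fun q hq => sub_eq_zero.mpr (hS q hq)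
  have h3 := hv ((ContinuousLinearMap.proj (R := ℂ) (φ := fun _ => ℂ) (fun _ => a₀, e₀)).smulRight
    (L₁ - L₂)) (by
      rintro _ ⟨q, hq, rfl⟩
      rw [ContinuousLinearMap.smulRight_apply, _root_.smul_apply, hL, hg0 q hq]
      simp)
  rw [ContinuousLinearMap.smulRight_apply, _root_.smul_apply,
    ContinuousLinearMap.smulRight_apply, _root_.smul_apply, hL, hg0 q₀ hq,
    ContinuousLinearMap.proj_apply, vs_const] at h3
  simp only [mul_zero, smul_eq_mul, add_zero] at h3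
  have h4 := (mul_eq_zero.mp h3).resolve_left (mul_ne_zero (pow_ne_zero _ ha) he)
  have hgd : DifferentiableAt ℂ g q₀ :=
    (((ev_diff f₁ q₀.1).comp q₀ differentiableAt_fst).mul
      (l₁.differentiableAt.comp q₀ differentiableAt_snd)).sub
    (((ev_diff f₂ q₀.1).comp q₀ differentiableAt_fst).mul
      (l₂.differentiableAt.comp q₀ differentiableAt_snd))
  have h5 := hasL D (L₁ - L₂) q₀
  rw [funext hL] at h5
  have h6 := ((has1 a₀ q₀).differentiableAt.pow (D - d)).hasFDerivAt.mul hgd.hasFDerivAt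
  have h7 := congrArg (fun T => T dq) (h5.unique h6)
  simp only [ContinuousLinearMap.comp_apply, h4, _root_.add_apply,
    _root_.smul_apply, hg0 q₀ hq, smul_eq_mul, zero_mul, add_zero,
    Pi.pow_apply] at h7
  exact (mul_eq_zero.mp h7.symm).resolve_left (pow_ne_zero _ ha)

end

theorem svl : SVL := by
  refine ⟨fun α ε _ _ D hD q q' h1 h2 => svl_eq D hD q q' h1 h2, ?_⟩
  intro α ε _ _ D hD S q₀ hq h1 h2 v hv
  obtain ⟨a₀, ha⟩ := Function.ne_iff.mp h1
  obtain ⟨e₀, he⟩ := Function.ne_iff.mp h2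
  simp only [Pi.zero_apply] at ha he
  obtain ⟨D, rfl⟩ : ∃ D', D = D' + 1 := ⟨D - 1, by omega⟩
  have hp : q₀.1 a₀ ^ (D + 1) ≠ 0 := pow_ne_zero _ ha
  have hz : q₀.1 a₀ ^ D * q₀.2 e₀ ≠ 0 := mul_ne_zero (pow_ne_zero _ ha) he
  obtain ⟨dy, hdy⟩ : ∃ dy : ε → ℂ, ∀ e, q₀.1 a₀ ^ (D + 1) * dy e = v (fun _ => a₀, e) :=
    ⟨fun e => v (fun _ => a₀, e) / q₀.1 a₀ ^ (D + 1), fun e => mul_div_cancel₀ _ hp⟩
  obtain ⟨dP, hdP⟩ : ∃ dP : α → ℂ, ∀ a, q₀.1 a₀ ^ D * q₀.2 e₀ * dP a =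
      v (Function.update (fun _ => a₀) 0 a, e₀) - q₀.1 a * q₀.1 a₀ ^ D * dy e₀ :=
    ⟨fun a => _ / (q₀.1 a₀ ^ D * q₀.2 e₀), fun a => mul_div_cancel₀ _ hz⟩
  have hP0 : dP a₀ = 0 := by
    have h3 := hdP a₀
    rw [Function.update_eq_self, ← hdy] at h3
    refine (mul_eq_zero.mp (h3.trans ?_)).resolve_left hz
    ring
  have hvd : v = fderiv ℂ (vs (D + 1)) q₀ (dP, dy) := by
    refine sub_eq_zero.mp (kill D q₀ a₀ e₀ ha he _ ?_ ?_ ?_)
    · intro Q hQ
      have h3 := hv Q (by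
        rintro _ ⟨q, _, rfl⟩
        exact hQ q)
      have h4 := quad_tangent (D + 1) Q hQ q₀ (dP, dy)
      rw [map_sub, map_sub, _root_.sub_apply]
      linear_combination h3 - h4
    · intro e
      rw [Pi.sub_apply, dvs, ← hdy]
      simp [hP0]
    · intro a
      rw [Pi.sub_apply, dvs, prod_upd0, Fin.sum_univ_succ]
      have h3 : ∏ j ∈ Finset.univ.erase (0 : Fin (D + 1)),
          q₀.1 (Function.update (fun _ : Fin (D + 1) => a₀) 0 a j) = q₀.1 a₀ ^ D := by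
        rw [Finset.prod_congr rfl fun j hj => by
          rw [Function.update_of_ne (Finset.ne_of_mem_erase hj)]]
        simp
      simp only [h3, Function.update_self, Function.update_of_ne (Fin.succ_ne_zero _), hP0,
        mul_zero, Finset.sum_const_zero, add_zero]
      linear_combination -hdP a
  have hv' := hv
  rw [hvd] at hv'
  have hrel := ker_rel (D + 1) S q₀ hq a₀ e₀ ha he (dP, dy) hv'
  refine ⟨(dP, dy), hvd, hrel, ?_, ?_⟩
  · intro d hd f hf hS
    have h3 := hrel d hd f 0 hf (MvPolynomial.isHomogeneous_zero _ _ _)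
      (ContinuousLinearMap.proj e₀) 0 (fun q hq => by simp [hS q hq])
    have h4 := (((ev_diff f q₀.1).hasFDerivAt.comp q₀ hasFDerivAt_fst).mul (has2 e₀ q₀)).fderiv
    have h5 := congrArg (fun T => T (dP, dy)) h4
    simp only [map_zero, mul_zero, sub_zero, ContinuousLinearMap.proj_apply,
      _root_.zero_apply] at h3
    have h6 := h3.symm.trans h5
    simp only [_root_.add_apply, _root_.smul_apply, Function.comp_apply,
      hS q₀ hq, smul_eq_mul, zero_mul, zero_add, ContinuousLinearMap.comp_apply,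
      ContinuousLinearMap.coe_fst'] at h6
    exact (mul_eq_zero.mp h6.symm).resolve_left he
  · intro Q hQ
    have h3 := hv (Q.bilinearComp (slice fun _ => a₀) (slice fun _ => a₀)) (by
      rintro _ ⟨q, hq, rfl⟩
      rw [ContinuousLinearMap.bilinearComp_apply, slice_vs]
      simp [hQ q hq])
    have h4 : slice (fun _ => a₀) v = q₀.1 a₀ ^ (D + 1) • dy := funext fun e => (hdy e).symm
    rw [ContinuousLinearMap.bilinearComp_apply, ContinuousLinearMap.bilinearComp_apply, slice_vs,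
      h4] at h3
    simp only [Finset.prod_const, Finset.card_univ, Fintype.card_fin, map_smul,
      _root_.smul_apply, smul_eq_mul] at h3
    refine mul_left_cancel₀ (mul_ne_zero hp hp) ?_
    linear_combination h3

end Pool.Agent.MP_fcd29e_an.H9
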