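import Pool.Agent.MP_fcd29e_an.H81.Spec2

/-!
Row CUT: invariant cut-off functions on cones, and the extension from a cone to `ℂ^N ∖ {0}`.
-/

set_option autoImplicit false

open Pool.Agent.MP_fcd29e_an.H81 MeasureTheory Complex Set Filter Topology Metric
open scoped ContDiff ComplexConjugate ENNReal NNReal

namespace Pool.Agent.MP_fcd29e_an.H9

noncomputable section

variable {N : ℕ}

/-- The projection of `p` to the line through `z`. -/
def prj (p z : E N) : E N := (inner ℂ z p / ((‖z‖ ^ 2 : ℝ) : ℂ)) • z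

theorem prj_smul (p z : E N) (c : ℂ) (hc : c ≠ 0) : prj p (c • z) = prj p z := by
  unfold prj
  rw [smul_smul, inner_smul_left, norm_smul, mul_pow]
  congr 1
  have h1 : ((‖c‖ ^ 2 : ℝ) : ℂ) = c * conj c := by
    rw [Complex.mul_conj, Complex.normSq_eq_norm_sq]
  have h2 : conj c ≠ 0 := by simpa using hc
  rw [ofReal_mul, h1]
  by_cases h3 : ((‖z‖ ^ 2 : ℝ) : ℂ) = 0
  · simp [h3]
  · field_simp

theorem prj_self (p : E N) (hp : p ≠ 0) : prj p p = p := by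
  unfold prj
  have h1 : ((‖p‖ ^ 2 : ℝ) : ℂ) ≠ 0 := by
    have := norm_ne_zero_iff.2 hp
    exact_mod_cast pow_ne_zero 2 this
  rw [inner_self_eq_norm_sq_to_K]
  have h2 : ((‖p‖ : ℝ) : ℂ) ^ 2 / ((‖p‖ ^ 2 : ℝ) : ℂ) = 1 := by
    rw [← ofReal_pow, div_self h1]
  exact (congrArg (· • p) h2).trans (one_smul ℂ p)

theorem prj_smooth (p z : E N) (hz : z ≠ 0) : ContDiffAt ℝ ∞ (prj p) z := by
  have h1 : ContDiffAt ℝ ∞ (fun y : E N => ((‖y‖ ^ 2 : ℝ) : ℂ)) z :=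
    contDiffAt_cx (contDiff_norm_sq ℂ).contDiffAt
  have h2 : ((‖z‖ ^ 2 : ℝ) : ℂ) ≠ 0 := by
    have := norm_ne_zero_iff.2 hz
    exact_mod_cast pow_ne_zero 2 this
  have h3 : ContDiffAt ℝ ∞ (fun y : E N => inner ℂ y p) z :=
    ContDiffAt.inner ℂ contDiffAt_id contDiffAt_const
  have h4 : ContDiffAt ℝ ∞ (fun y : E N => inner ℂ y p / ((‖y‖ ^ 2 : ℝ) : ℂ)) z := by
    simp only [div_eq_mul_inv]
    exact h3.mul (h1.inv h2)
  exact h4.smul contDiffAt_id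

theorem bump (U : Set (E N)) (hU : IsOpen U) (hC : Cone U) (p : E N) (hp : p ∈ U) :
    ∃ χ : E N → ℝ, ContDiffOn ℝ ∞ χ (E0 N) ∧ (∀ c : ℂ, c ≠ 0 → ∀ z, χ (c • z) = χ z) ∧
      (∀ z, 0 ≤ χ z) ∧ 0 < χ p ∧ ∀ z, z ≠ 0 → z ∉ U → ∀ᶠ y in 𝓝 z, χ y = 0 := by
  obtain ⟨r, hr, hb⟩ := Metric.isOpen_iff.1 hU p hp
  have hp0 : p ≠ 0 := fun h => hC.1 (h ▸ hp)
  have hG : ∀ z : E N, z ≠ 0 → ContDiffAt ℝ ∞ (fun y => r ^ 2 / 2 - ‖prj p y - p‖ ^ 2) z :=
    fun z hz => contDiffAt_const.sub (((prj_smooth p z hz).sub contDiffAt_const).norm_sq ℂ)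
  refine ⟨fun y => expNegInvGlue (r ^ 2 / 2 - ‖prj p y - p‖ ^ 2), fun z hz => ?_,
    fun c hc z => by simp only [prj_smul p z c hc], fun z => expNegInvGlue.nonneg _, ?_,
    fun z hz hzU => ?_⟩
  · exact (expNegInvGlue.contDiff.contDiffAt.comp z (hG z hz)).contDiffWithinAt
  · refine expNegInvGlue.pos_of_pos ?_
    rw [prj_self p hp0, sub_self, norm_zero]
    have := pow_pos hr 2
    linarith
  · have h1 : r ≤ ‖prj p z - p‖ := by
      by_contra h
      have h2 : prj p z ∈ U := hb (mem_ball_iff_norm.2 (not_le.1 h))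
      have h3 : inner ℂ z p / ((‖z‖ ^ 2 : ℝ) : ℂ) ≠ 0 := by
        intro h0
        apply hC.1
        rwa [prj, h0, zero_smul] at h2
      have h4 := hC.2 _ (inv_ne_zero h3) _ h2
      rw [prj, smul_smul, inv_mul_cancel₀ h3, one_smul] at h4
      exact hzU h4
    have h2 : r ^ 2 / 2 - ‖prj p z - p‖ ^ 2 < 0 := by
      have := pow_le_pow_left₀ hr.le h1 2
      have := pow_pos hr 2
      linarith
    exact ((hG z hz).continuousAt.eventually (gt_mem_nhds h2)).mono fun y hy =>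
      expNegInvGlue.zero_of_nonpos hy.le

theorem bumpK (U : Set (E N)) (hU : IsOpen U) (hC : Cone U) (K : Set (E N)) (hK : Cone K)
    (hcl : IsClosed (insert 0 K)) (hKU : K ⊆ U) :
    ∃ θ : E N → ℝ, ContDiffOn ℝ ∞ θ (E0 N) ∧ (∀ c : ℂ, c ≠ 0 → ∀ z, θ (c • z) = θ z) ∧
      (∀ z ∈ K, ∀ᶠ y in 𝓝 z, θ y = 1) ∧ ∀ z, z ≠ 0 → z ∉ U → ∀ᶠ y in 𝓝 z, θ y = 0 := by
  have hE : IsOpen (E0 N) := isOpen_compl_singleton
  choose χ h1 h2 h3 h4 h5 using fun p : K => bump U hU hC p.1 (hKU p.2)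
  have hc : IsCompact (insert 0 K ∩ sphere (0 : E N) 1) := (isCompact_sphere 0 1).inter_left hcl
  have hs : ∀ z ∈ insert 0 K ∩ sphere (0 : E N) 1, z ≠ 0 ∧ z ∈ K := by
    rintro z ⟨hz, hz1⟩
    have h0 : z ≠ 0 := by
      rintro rfl
      simp at hz1
    exact ⟨h0, hz.resolve_left h0⟩
  obtain ⟨t, ht⟩ := hc.elim_finite_subcover (fun p : K => E0 N ∩ χ p ⁻¹' Ioi 0)
    (fun p => (h1 p).continuousOn.isOpen_inter_preimage hE isOpen_Ioi)
    (fun z hz => mem_iUnion.2 ⟨⟨z, (hs z hz).2⟩, (hs z hz).1, h4 ⟨z, (hs z hz).2⟩⟩)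
  have hS : ContDiffOn ℝ ∞ (fun z => ∑ p ∈ t, χ p z) (E0 N) := ContDiffOn.sum fun p _ => h1 p
  obtain ⟨m, hm, hm2⟩ := hc.exists_forall_le' (f := fun z => ∑ p ∈ t, χ p z) (a := 0)
    (hS.continuousOn.mono fun z hz => (hs z hz).1) (fun z hz => by
      obtain ⟨p, hp, hz2⟩ := mem_iUnion₂.1 (ht hz)
      exact Finset.sum_pos' (fun q _ => h3 q z) ⟨p, hp, hz2.2⟩)
  refine ⟨fun z => Real.smoothTransition (2 / m * ∑ p ∈ t, χ p z),
    Real.smoothTransition.contDiff.comp_contDiffOn (contDiffOn_const.mul hS),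
    fun c hc z => by simp only [h2 _ c hc], fun z hz => ?_, fun z hz hzU => ?_⟩
  · have hz0 : z ≠ 0 := fun h => hK.1 (h ▸ hz)
    have hn : ((‖z‖⁻¹ : ℝ) : ℂ) ≠ 0 := by
      have := norm_ne_zero_iff.2 hz0
      exact_mod_cast inv_ne_zero this
    have h6 := hm2 (((‖z‖⁻¹ : ℝ) : ℂ) • z) ⟨Or.inr (hK.2 _ hn z hz), by
      rw [mem_sphere_zero_iff_norm, norm_smul, norm_real, norm_inv, norm_norm,
        inv_mul_cancel₀ (norm_ne_zero_iff.2 hz0)]⟩
    simp only [h2 _ _ hn] at h6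
    have h7 : m / 2 < ∑ p ∈ t, χ p z := by linarith
    refine (((hS.contDiffAt (hE.mem_nhds hz0)).continuousAt).eventually
      (lt_mem_nhds h7)).mono fun y hy => Real.smoothTransition.one_of_one_le ?_
    rw [div_mul_eq_mul_div, le_div_iff₀ hm]
    linarith
  · have h6 : ∀ᶠ y in 𝓝 z, ∀ p ∈ t, χ p y = 0 :=
      (Filter.eventually_all_finset t).2 fun p _ => h5 p z hz hzU
    refine h6.mono fun y hy => ?_
    simp only [Finset.sum_eq_zero hy, mul_zero, Real.smoothTransition.zero]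

theorem cutoff (_L : Lv0) (hf : StmtFL) : StmtCUT := by
  intro N U hU hC
  refine ⟨bump U hU hC, fun ρ K T α hK hKU hα => ?_⟩
  have hE : IsOpen (E0 N) := isOpen_compl_singleton
  obtain ⟨θ, h1, h2, h3, h4⟩ := bumpK U hU hC K hK.cone hK.closed hKU
  have h5 : ∀ z ∈ K, ∀ k, α k =ᶠ[𝓝 z] fun y => (θ y : ℂ) * α k y := fun z hz k =>
    (h3 z hz).mono fun y hy => by simp only [hy, ofReal_one, one_mul]
  refine ⟨fun k z => (θ z : ℂ) * α k z, fun k z hz => ?_, fun k c hc z hz => ?_, fun z hz => ?_,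
    fun j k => ?_, fun z hz w hw j => ?_⟩
  · by_cases hzU : z ∈ U
    · exact ((contDiffAt_cx (h1.contDiffAt (hE.mem_nhds hz))).mul
        ((hα.smooth k).contDiffAt (hU.mem_nhds hzU))).contDiffWithinAt
    · refine (contDiffAt_const (c := (0 : ℂ))).congr_of_eventuallyEq ?_ |>.contDiffWithinAt
      exact (h4 z hz hzU).mono fun y hy => by simp only [hy, ofReal_zero, zero_mul]
  · by_cases hzU : z ∈ U
    · simp only [h2 c hc, hα.hom k c hc z hzU]
      ring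
    · simp only [h2 c hc, (h4 z hz hzU).self_of_nhds, ofReal_zero, zero_mul, mul_zero]
  · by_cases hzU : z ∈ U
    · simp only [mul_left_comm _ (θ z : ℂ), ← Finset.mul_sum, hα.hor z hzU, mul_zero]
    · simp only [(h4 z hz hzU).self_of_nhds, ofReal_zero, zero_mul, mul_zero,
        Finset.sum_const_zero]
  · refine ((hf N K U hU hKU).1 T _ (hα.flat j k)).2.2.1 _ fun z hz => ?_
    filter_upwards [dzb_congr' (h5 z hz k) j, dzb_congr' (h5 z hz j) k] with y e1 e2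
    simp only [d1, e1, e2]
  · simp only [(h3 z hz).self_of_nhds, ofReal_one, one_mul]
    exact hα.eq z hz w hw j

end

end Pool.Agent.MP_fcd29e_an.H9
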