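import Pool.Agent.MP_fcd29e_an.H81.Spec2

/-!
Row S1: the current attached to a pluriharmonic measure.
-/

set_option autoImplicit false

open Pool.Agent.MP_fcd29e_an.H81 MeasureTheory Complex Set Filter Topology Metric
open scoped ContDiff ComplexConjugate ENNReal NNReal

namespace Pool.Agent.MP_fcd29e_an.H9

noncomputable section

variable {N : ℕ}

/-- The pointwise facts on the projector. -/
structure Gd (ρ : E N → ℝ) (y : E N) : Prop where
  ne : y ≠ 0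
  reg : y ∈ Reg ρ
  bd : ∀ j k, ‖PP ρ y j k‖ ≤ 1
  left : ∀ k, ∑ j, conj (y j) * PP ρ y j k = 0
  right : ∀ k, ∑ j, PP ρ y k j * y j = 0
  tr : ∑ j, PP ρ y j j = (N : ℂ) - 2

theorem gd_of_mem (L : Lv0) {ρ : E N → ℝ} {K : Set (E N)} (hρ : Dom ρ) (hK : KS ρ K) {y : E N}
    (hy : y ∈ K) : Gd ρ y := by
  have h0 : y ≠ 0 := fun h => hK.cone.1 (h ▸ hy)
  obtain ⟨-, -, -, h4, -, -, h7⟩ := (L.pf N).2.2.2 ρ hρ
  have hr := (h7 y h0 (hK.bd y hy)).1
  obtain ⟨-, -, -, -, -, a, b, c⟩ := h4 y hr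
  exact ⟨h0, hr, fun j k => (a j k).2.1, fun k => (b k).2.1, fun k => (b k).2.2.1, c⟩

theorem meas_dz (j : Fin N) (f : E N → ℂ) : Measurable (dz j f) :=
  ((measurable_fderiv_apply_const ℝ f _).sub
    ((measurable_fderiv_apply_const ℝ f _).const_mul I)).div_const 2

theorem meas_sf (ρ : E N → ℝ) (γ : Fin N → E N → ℂ) (hγ : ∀ k, Continuous (γ k)) :
    Measurable (sf ρ γ) := by
  have hc : ∀ k, Measurable fun z : E N => z k := fun k =>
    (contDiff_coord (n := 0) k).continuous.measurable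
  have hj : Measurable (fun w : ℂ => conj w) := continuous_conj.measurable
  have hn : Measurable fun z : E N => ((‖z‖ ^ 2 : ℝ) : ℂ) :=
    measurable_ofReal.comp (measurable_norm.pow_const 2)
  have ha : Measurable fun z => ((an ρ z : ℝ) : ℂ) :=
    measurable_ofReal.comp (Finset.measurable_sum _ fun j _ => (meas_dz j _).norm.pow_const 2)
  have hP : ∀ l k, Measurable fun z => PP ρ z l k := fun l k =>
    (measurable_const.sub (((hc l).mul (hj.comp (hc k))).div hn)).sub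
      (((hj.comp (meas_dz l _)).mul (meas_dz k _)).div ha)
  exact (Finset.measurable_sum _ fun l _ => Finset.measurable_sum _ fun k _ =>
    (hP l k).mul (meas_dz l _)).sub ((measurable_const.mul
      (Finset.measurable_sum _ fun k _ => (hj.comp (hc k)).mul (hγ k).measurable)).div hn)

theorem norm_dz_le (j : Fin N) (g : E N → ℂ) (z : E N) : ‖dz j g z‖ ≤ ‖fderiv ℝ g z‖ := by
  have h0 : ‖(ee j : E N)‖ = 1 := by simp [ee]
  have h1 := (fderiv ℝ g z).le_opNorm (ee j)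
  have h2 := (fderiv ℝ g z).le_opNorm (I • ee j)
  rw [norm_smul, norm_I, h0, one_mul, mul_one] at h2
  rw [h0, mul_one] at h1
  have h3 := norm_sub_le (fderiv ℝ g z (ee j)) (I * fderiv ℝ g z (I • ee j))
  rw [norm_mul, norm_I, one_mul] at h3
  rw [dz, norm_div, Complex.norm_ofNat]
  linarith

theorem sf_bound {ρ : E N → ℝ} {γ : Fin N → E N → ℂ} (hγ : ∀ k, Dk (γ k)) :
    ∃ C : ℝ, 0 ≤ C ∧ ∀ y, Gd ρ y → ‖sf ρ γ y‖ ≤ C * (((1 + ‖y‖) ^ 3)⁻¹ * (1 + ‖y‖⁻¹)) := by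
  choose C hC using fun k => (hγ k).2
  have hC0 : ∀ k, 0 ≤ C k := fun k => by
    have := (norm_nonneg _).trans (hC k 0).1
    simpa using this
  have hS : 0 ≤ ∑ k, C k := Finset.sum_nonneg fun k _ => hC0 k
  refine ⟨(N + ‖(N : ℂ) - 2‖) * ∑ k, C k, by positivity, fun y hy => ?_⟩
  have hy0 : 0 < ‖y‖ := norm_pos_iff.2 hy.ne
  set A : ℝ := ((1 + ‖y‖) ^ 3)⁻¹ with hA
  have hA0 : 0 ≤ A := by positivity
  have h1 : ‖∑ l, ∑ k, PP ρ y l k * dz l (γ k) y‖ ≤ N * ((∑ k, C k) * A) := by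
    refine (norm_sum_le _ _).trans ?_
    refine (Finset.sum_le_card_nsmul _ _ ((∑ k, C k) * A) fun l _ => ?_).trans (by simp)
    refine (norm_sum_le _ _).trans ?_
    rw [Finset.sum_mul]
    refine Finset.sum_le_sum fun k _ => ?_
    rw [norm_mul]
    calc ‖PP ρ y l k‖ * ‖dz l (γ k) y‖ ≤ 1 * (C k * A) :=
          mul_le_mul (hy.bd l k) ((norm_dz_le l _ y).trans (hC k y).2) (norm_nonneg _) zero_le_one
      _ = C k * A := one_mul _
  have h2 : ‖∑ k, conj (y k) * γ k y‖ ≤ ‖y‖ * ((∑ k, C k) * A) := by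
    refine (norm_sum_le _ _).trans ?_
    rw [Finset.sum_mul, Finset.mul_sum]
    refine Finset.sum_le_sum fun k _ => ?_
    rw [norm_mul, Complex.norm_conj]
    exact mul_le_mul (PiLp.norm_apply_le y k) (hC k y).1 (norm_nonneg _) hy0.le
  have h3 : ‖((N : ℂ) - 2) * (∑ k, conj (y k) * γ k y) / ((‖y‖ ^ 2 : ℝ) : ℂ)‖ ≤
      ‖(N : ℂ) - 2‖ * ((∑ k, C k) * A) * ‖y‖⁻¹ := by
    rw [norm_div, norm_mul, norm_real, norm_pow, norm_norm, div_le_iff₀ (by positivity)]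
    calc ‖(N : ℂ) - 2‖ * ‖∑ k, conj (y k) * γ k y‖ ≤ ‖(N : ℂ) - 2‖ * (‖y‖ * ((∑ k, C k) * A)) :=
          mul_le_mul_of_nonneg_left h2 (norm_nonneg _)
      _ = _ := by field_simp
  have h4 : 0 ≤ (∑ k, C k) * A := by positivity
  have h5 : 0 ≤ ‖y‖⁻¹ := by positivity
  have h6 : 0 ≤ (N : ℝ) * ((∑ k, C k) * A) * ‖y‖⁻¹ := by positivity
  have h7 : 0 ≤ ‖(N : ℂ) - 2‖ * ((∑ k, C k) * A) := by positivity
  refine (norm_sub_le _ _).trans ((add_le_add h1 h3).trans ?_)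
  nlinarith

theorem int_bound : Integrable fun c : ℂ => ((1 + ‖c‖) ^ 3)⁻¹ * (1 + ‖c‖⁻¹) := by
  have h1 : Integrable fun c : ℂ => (1 + ‖c‖) ^ (-(3 : ℝ)) :=
    integrable_one_add_norm (by simp; norm_num)
  have h2 : IntegrableOn (fun c : ℂ => ‖c‖⁻¹) (ball 0 1) :=
    integrableOn_ball_of_norm_le_rpow (C := 1) (α := 1) (by simp) (by simp)
      (Eventually.of_forall fun c => by simp [Real.rpow_neg_one])
      measurable_norm.inv.aestronglyMeasurable
  have h3 := (h1.const_mul 2).add ((integrable_indicator_iff measurableSet_ball).2 h2)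
  refine h3.mono' (Measurable.aestronglyMeasurable (by fun_prop)) (Eventually.of_forall fun c => ?_)
  have e : (1 + ‖c‖) ^ (-(3 : ℝ)) = ((1 + ‖c‖) ^ 3)⁻¹ := by
    rw [Real.rpow_neg (by positivity)]
    norm_cast
  have hA0 : 0 ≤ ((1 + ‖c‖) ^ 3)⁻¹ := by positivity
  have hA1 : ((1 + ‖c‖) ^ 3)⁻¹ ≤ 1 :=
    inv_le_one_of_one_le₀ (one_le_pow₀ (by linarith [norm_nonneg c]))
  have h5 : 0 ≤ ‖c‖⁻¹ := by positivity
  rw [Real.norm_of_nonneg (by positivity), Pi.add_apply, e]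
  by_cases hc : c ∈ ball (0 : ℂ) 1
  · rw [indicator_of_mem hc]
    nlinarith
  · rw [indicator_of_notMem hc]
    have h6 : ‖c‖⁻¹ ≤ 1 := inv_le_one_of_one_le₀ (by simpa using hc)
    nlinarith

theorem ae_prod {ρ : E N → ℝ} {K : Set (E N)} {μ : Measure (E N)} (hK : KS ρ K)
    (hμ : Mu ρ K μ) : ∀ᵐ p : E N × ℂ ∂μ.prod volume, p.2 • p.1 ∈ K ∧ ‖p.2 • p.1‖ = ‖p.2‖ := by
  have h1 := (Measure.quasiMeasurePreserving_fst (μ := μ) (ν := (volume : Measure ℂ))).ae hμ.supp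
  have h2 := (Measure.quasiMeasurePreserving_snd (μ := μ) (ν := (volume : Measure ℂ))).ae
    (Measure.ae_ne volume (0 : ℂ))
  filter_upwards [h1, h2] with p a b
  exact ⟨hK.cone.2 _ b _ a.1, by rw [norm_smul, a.2, mul_one]⟩

theorem int_sf (L : Lv0) {ρ : E N → ℝ} {K : Set (E N)} {μ : Measure (E N)} (hρ : Dom ρ)
    (hK : KS ρ K) (hμ : Mu ρ K μ) {γ : Fin N → E N → ℂ} (hγ : ∀ k, Dk (γ k)) :
    Integrable (fun p : E N × ℂ => sf ρ γ (p.2 • p.1)) (μ.prod volume) := by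
  have := hμ.prob
  obtain ⟨C, -, hC⟩ := sf_bound (ρ := ρ) hγ
  refine ((int_bound.const_mul C).comp_snd μ).mono'
    ((meas_sf ρ γ fun k => (hγ k).1.continuous).comp
      (measurable_snd.smul measurable_fst)).aestronglyMeasurable ?_
  filter_upwards [ae_prod hK hμ] with p hp
  have := hC _ (gd_of_mem L hρ hK hp.1)
  rwa [hp.2] at this

theorem sf_add (ρ : E N → ℝ) {γ γ' : Fin N → E N → ℂ} {y : E N}
    (h : ∀ k, DifferentiableAt ℝ (γ k) y) (h' : ∀ k, DifferentiableAt ℝ (γ' k) y) :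
    sf ρ (fun k z => γ k z + γ' k z) y = sf ρ γ y + sf ρ γ' y := by
  simp only [sf, dz_add _ (h _) (h' _), mul_add, Finset.sum_add_distrib]
  ring

theorem sf_sub (ρ : E N → ℝ) {γ γ' : Fin N → E N → ℂ} {y : E N}
    (h : ∀ k, DifferentiableAt ℝ (γ k) y) (h' : ∀ k, DifferentiableAt ℝ (γ' k) y) :
    sf ρ (fun k z => γ k z - γ' k z) y = sf ρ γ y - sf ρ γ' y := by
  simp only [sf, dz_sub _ (h _) (h' _), mul_sub, Finset.sum_sub_distrib]
  ring

theorem smooth_rad {θ : ℝ → ℝ} (hθ : ContDiff ℝ ∞ θ) :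
    ContDiff ℝ ∞ (cx fun w : E N => θ (‖w‖ ^ 2)) :=
  contDiff_iff_contDiffAt.2 fun _ => contDiffAt_cx (hθ.comp (contDiff_norm_sq ℂ)).contDiffAt

theorem dz_rad {θ : ℝ → ℝ} (hθ : ContDiff ℝ ∞ θ) (j : Fin N) (y : E N) :
    dz j (cx fun w : E N => θ (‖w‖ ^ 2)) y = (deriv θ (‖y‖ ^ 2) : ℝ) * conj (y j) ∧
    dzb j (cx fun w : E N => θ (‖w‖ ^ 2)) y = (deriv θ (‖y‖ ^ 2) : ℝ) * y j := by
  have h1 : DifferentiableAt ℝ (fun w : E N => ‖w‖ ^ 2) y :=
    (contDiff_norm_sq ℂ (n := 1)).differentiable (by simp) y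
  have h2 := (hθ.differentiable (by simp) (‖y‖ ^ 2)).hasDerivAt
  exact ⟨by rw [dz_comp_real j h1 h2, dz_normSq], by rw [dzb_comp_real j h1 h2, dzb_normSq]⟩

theorem sf_rad {ρ : E N → ℝ} {γ : Fin N → E N → ℂ} {y : E N} (hy : Gd ρ y) {θ : ℝ → ℝ}
    (hθ : ContDiff ℝ ∞ θ) (h : ∀ k, DifferentiableAt ℝ (γ k) y) :
    sf ρ (fun k z => (θ (‖z‖ ^ 2) : ℂ) * γ k z) y = (θ (‖y‖ ^ 2) : ℂ) * sf ρ γ y := by
  have h1 : DifferentiableAt ℝ (cx fun w : E N => θ (‖w‖ ^ 2)) y :=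
    (smooth_rad hθ).differentiable (by simp) y
  have h2 : ∀ l k, dz l (fun z => (θ (‖z‖ ^ 2) : ℂ) * γ k z) y =
      (deriv θ (‖y‖ ^ 2) : ℝ) * conj (y l) * γ k y + (θ (‖y‖ ^ 2) : ℂ) * dz l (γ k) y := by
    intro l k
    rw [← (dz_rad hθ l y).1]
    exact dz_mul l h1 (h k)
  have h3 : ∑ l, ∑ k, PP ρ y l k * ((deriv θ (‖y‖ ^ 2) : ℝ) * conj (y l) * γ k y) = 0 := by
    rw [Finset.sum_comm]
    refine Finset.sum_eq_zero fun k _ => ?_
    have := congrArg (· * (((deriv θ (‖y‖ ^ 2) : ℝ) : ℂ) * γ k y)) (hy.left k)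
    simp only [Finset.sum_mul, zero_mul] at this
    rw [← this]
    exact Finset.sum_congr rfl fun l _ => by ring
  simp only [sf, h2, mul_add, Finset.sum_add_distrib, h3, zero_add,
    mul_left_comm _ (θ (‖y‖ ^ 2) : ℂ), ← Finset.mul_sum]
  ring

theorem sf_euler {ρ : E N → ℝ} {g : E N → ℂ} {y : E N} (hy : Gd ρ y)
    (h : DifferentiableAt ℝ g y) : sf ρ (fun k z => g z * z k) y = 0 := by
  have hc : ∀ k, DifferentiableAt ℝ (fun w : E N => w k) y := fun k =>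
    ContDiffAt.da (contDiff_coord k).contDiffAt
  have h1 : ∀ l, ∑ k, PP ρ y l k * dz l (fun z => g z * z k) y = g y * PP ρ y l l := by
    intro l
    have := congrArg (· * dz l g y) (hy.right l)
    simp only [Finset.sum_mul, zero_mul] at this
    simp only [dz_mul l h (hc _), dz_coord, mul_add, Finset.sum_add_distrib, mul_ite, mul_one,
      mul_zero, Finset.sum_ite_eq, Finset.mem_univ, if_true]
    rw [mul_comm (g y), add_eq_right, ← this]
    exact Finset.sum_congr rfl fun k _ => by ring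
  have h2 : ∑ k, conj (y k) * (g y * y k) = g y * ((‖y‖ ^ 2 : ℝ) : ℂ) := by
    rw [norm_sq_eq, Finset.mul_sum]
    exact Finset.sum_congr rfl fun k _ => by ring
  have h3 : ((‖y‖ ^ 2 : ℝ) : ℂ) ≠ 0 := by
    have := norm_ne_zero_iff.2 hy.ne
    exact_mod_cast pow_ne_zero 2 this
  simp only [sf, h1, h2, ← Finset.mul_sum, hy.tr]
  field_simp
  ring

theorem sf_dzb_rad {ρ : E N → ℝ} {G : E N → ℂ} (hG : ContDiff ℝ ∞ G) {y : E N} (hy : Gd ρ y)
    {θ : ℝ → ℝ} (hθ : ContDiff ℝ ∞ θ) :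
    sf ρ (fun k => dzb k fun z => (θ (‖z‖ ^ 2) : ℂ) * G z) y =
      (θ (‖y‖ ^ 2) : ℂ) * sf ρ (fun k => dzb k G) y := by
  have h1 : ∀ z, DifferentiableAt ℝ (cx fun w : E N => θ (‖w‖ ^ 2)) z := fun z =>
    (smooth_rad hθ).differentiable (by simp) z
  have e : (fun k => dzb k fun z => (θ (‖z‖ ^ 2) : ℂ) * G z) = fun k z =>
      (θ (‖z‖ ^ 2) : ℂ) * dzb k G z + ((deriv θ (‖z‖ ^ 2) : ℝ) * G z) * z k := by
    funext k z
    have := dzb_mul k (h1 z) (hG.differentiable (by simp) z)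
    rw [(dz_rad hθ k z).2] at this
    exact this.trans (by ring)
  have h2 : ∀ k, DifferentiableAt ℝ (dzb k G) y := fun k =>
    ContDiffAt.da (contDiffAt_dzb k hG.contDiffAt)
  have h3 : DifferentiableAt ℝ (fun z : E N => ((deriv θ (‖z‖ ^ 2) : ℝ) : ℂ) * G z) y :=
    ((smooth_rad (contDiff_infty_iff_deriv.1 hθ).2).differentiable (by simp) y).mul
      (hG.differentiable (by simp) y)
  rw [e, sf_add ρ (fun k => (h1 y).fun_mul (h2 k))
    (fun k => h3.fun_mul (ContDiffAt.da (contDiff_coord k).contDiffAt)), sf_rad hy hθ h2,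
    sf_euler hy h3, add_zero]

theorem int_line {ψ : E N → ℂ} (hψ : Test (E0 N) ψ) {z : E N} (hz : z ≠ 0) :
    Integrable fun c : ℂ => ψ (c • z) :=
  (hψ.1.continuous.comp (continuous_id.smul continuous_const)).integrable_of_hasCompactSupport
    (hψ.2.1.comp_isClosedEmbedding (isClosedEmbedding_smul_left (𝕜 := ℂ) hz))

theorem normSq_c (c : ℂ) : ((‖c‖ ^ 2 : ℝ) : ℂ) = c * conj c := by
  rw [Complex.mul_conj, Complex.normSq_eq_norm_sq]

theorem line_eq (L : Lv0) {ρ : E N → ℝ} (hρ : Dom ρ) {ψ : E N → ℂ} (hψ : Test (E0 N) ψ)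
    {z : E N} (hz : z ≠ 0) :
    ∫ c : ℂ, sf ρ (fun k => dzb k ψ) (c • z) =
      ∑ l, ∑ k, PP ρ z l k * dz l (dzb k (Pp 0 0 ψ)) z := by
  have T1 := (L.t1 N (E0 N) isOpen_E0 (by simp)).2.2.2.1
  have hb : ∀ k, Test (E0 N) (dzb k ψ) := fun k => ((T1 ψ hψ).2.2.1 k).2
  have hd : ∀ l k, Test (E0 N) (dz l (dzb k ψ)) := fun l k => ((T1 _ (hb k)).2.2.1 l).1
  have hth : ∀ k, ContDiffOn ℝ ∞ (th k : E N → ℂ) (E0 N) := by
    intro k y hy
    have h2 : ((‖y‖ ^ 2 : ℝ) : ℂ) ≠ 0 := by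
      have := norm_ne_zero_iff.2 hy
      exact_mod_cast pow_ne_zero 2 this
    have h1 : ContDiffAt ℝ ∞ (fun w : E N => ((‖w‖ ^ 2 : ℝ) : ℂ)) y :=
      contDiffAt_cx (contDiff_norm_sq ℂ).contDiffAt
    have h3 := (contDiffAt_conj (contDiff_coord (n := ∞) k).contDiffAt).mul (h1.inv h2)
    exact (h3.congr_of_eventuallyEq
      (Eventually.of_forall fun w => div_eq_mul_inv _ _)).contDiffWithinAt
  have ht : ∀ k, Test (E0 N) fun y => th k y * dzb k ψ y := fun k => (T1 _ (hb k)).1 _ (hth k)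
  have hP : ∀ c : ℂ, c ≠ 0 → ∀ j k, PP ρ (c • z) j k = PP ρ z j k := fun c hc =>
    ((((L.pf N).2.2.2 ρ hρ).2.2.1 z hz).2.2.2.1 c hc).2.2
  have hΦ := (L.t4 N 0 0).2.2.1 ψ hψ
  have e1 : ∀ l k, dz l (dzb k (Pp 0 0 ψ)) z = ∫ c : ℂ, dz l (dzb k ψ) (c • z) := by
    intro l k
    have h1 : dzb k (Pp 0 0 ψ) =ᶠ[𝓝 z] Pp 0 (0 - 1) (dzb k ψ) :=
      (isOpen_E0.eventually_mem hz).mono fun y hy => (hΦ.2 k y hy).2
    rw [dz_congr h1, (((L.t4 N 0 (0 - 1)).2.2.1 _ (hb k)).2 l z hz).1, Pp]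
    refine integral_congr_ae ((Measure.ae_ne volume (0 : ℂ)).mono fun c hc => ?_)
    have h2 : conj c ≠ 0 := by simpa using hc
    simp only [normSq_c, zero_sub, neg_neg, zpow_one]
    field_simp
  have e2 : ∑ k, ∫ c : ℂ, th k (c • z) * dzb k ψ (c • z) = 0 := by
    have h1 := (((L.pf N).1 (E0 N) 0 0 _ isOpen_E0 cone_E0 ((L.t4 N 0 0).1 ψ)).2 z hz
      (ContDiffAt.da (hΦ.1.contDiffAt (isOpen_E0.mem_nhds hz)))).2
    have h2 : ∀ k, ∫ c : ℂ, th k (c • z) * dzb k ψ (c • z) =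
        ((‖z‖ ^ 2 : ℝ) : ℂ)⁻¹ * (conj (z k) * dzb k (Pp 0 0 ψ) z) := by
      intro k
      rw [(hΦ.2 k z hz).2, Pp, ← integral_const_mul, ← integral_const_mul]
      refine integral_congr_ae (Eventually.of_forall fun c => ?_)
      simp only [th, zero_sub, neg_neg, zpow_one, neg_zero, zpow_zero, PiLp.smul_apply,
        smul_eq_mul, map_mul, norm_smul, mul_pow, ofReal_mul, div_eq_mul_inv, mul_inv]
      ring
    simp only [h2, ← Finset.mul_sum, h1, Int.cast_zero, zero_mul, mul_zero]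
  have e3 : ∀ᵐ c : ℂ, sf ρ (fun k => dzb k ψ) (c • z) =
      ∑ l, ∑ k, PP ρ z l k * dz l (dzb k ψ) (c • z) -
        ((N : ℂ) - 2) * ∑ k, th k (c • z) * dzb k ψ (c • z) := by
    refine (Measure.ae_ne volume (0 : ℂ)).mono fun c hc => ?_
    simp only [sf, hP c hc, th, mul_div_assoc, Finset.sum_div]
    congr 2
    exact Finset.sum_congr rfl fun k _ => by ring
  have i1 : ∀ l k, Integrable fun c : ℂ => PP ρ z l k * dz l (dzb k ψ) (c • z) := fun l k =>
    (int_line (hd l k) hz).const_mul _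
  rw [integral_congr_ae e3, integral_sub
    (integrable_finsetSum _ fun l _ => integrable_finsetSum _ fun k _ => i1 l k)
    ((integrable_finsetSum _ fun k _ => int_line (ht k) hz).const_mul _), integral_const_mul,
    integral_finsetSum _ fun k _ => int_line (ht k) hz, e2, mul_zero, sub_zero,
    integral_finsetSum _ fun l _ => integrable_finsetSum _ fun k _ => i1 l k]
  refine Finset.sum_congr rfl fun l _ => ?_
  rw [integral_finsetSum _ fun k _ => i1 l k]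
  exact Finset.sum_congr rfl fun k _ => by rw [integral_const_mul, e1]

theorem hess_split (L : Lv0) {ρ : E N → ℝ} (hρ : Dom ρ) {Φ : E N → ℂ}
    (hΦ : ContDiffOn ℝ ∞ Φ (E0 N)) {z : E N} (hz : Gd ρ z) :
    ∑ l, ∑ k, PP ρ z l k * dz l (dzb k Φ) z =
      (trH ρ (fun y => (Φ y).re) z : ℂ) + (trH ρ (fun y => (Φ y).im) z : ℂ) * I := by
  have h1 : ∀ y : E N, y ≠ 0 → ContDiffAt ℝ ∞ (fun y => (Φ y).re) y := fun y hy =>
    reCLM.contDiff.contDiffAt.comp y (hΦ.contDiffAt (isOpen_E0.mem_nhds hy))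
  have h2 : ∀ y : E N, y ≠ 0 → ContDiffAt ℝ ∞ (fun y => (Φ y).im) y := fun y hy =>
    imCLM.contDiff.contDiffAt.comp y (hΦ.contDiffAt (isOpen_E0.mem_nhds hy))
  have h3 := ((L.pf N).2.2.2 ρ hρ).2.2.2.2.1 z hz.reg
  have e : ∀ l k, dz l (dzb k Φ) z = dz l (dzb k (cx fun y => (Φ y).re)) z +
      I * dz l (dzb k (cx fun y => (Φ y).im)) z := by
    intro l k
    have h4 : dzb k Φ =ᶠ[𝓝 z] fun y => dzb k (cx fun y => (Φ y).re) y +
        I * dzb k (cx fun y => (Φ y).im) y := by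
      refine (isOpen_E0.eventually_mem hz.ne).mono fun y hy => ?_
      have a1 := ContDiffAt.da (contDiffAt_cx (h1 y hy))
      have a2 := ContDiffAt.da (contDiffAt_cx (h2 y hy))
      beta_reduce
      rw [← dzb_const_mul k I a2, ← dzb_add k a1 (a2.const_mul I)]
      congr 1
      funext w
      rw [mul_comm]
      exact (re_add_im (Φ w)).symm
    have a1 := ContDiffAt.da (contDiffAt_dzb k (contDiffAt_cx (h1 z hz.ne)))
    have a2 := ContDiffAt.da (contDiffAt_dzb k (contDiffAt_cx (h2 z hz.ne)))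
    rw [dz_congr h4, dz_add l a1 (a2.const_mul I), dz_const_mul l I a2]
  rw [(h3 _ (h1 z hz.ne)).1, (h3 _ (h2 z hz.ne)).1]
  simp only [e, Finset.sum_mul, ← Finset.sum_add_distrib]
  exact Finset.sum_congr rfl fun l _ => Finset.sum_congr rfl fun k _ => by ring

theorem test_zero (L : Lv0) {ρ : E N → ℝ} {K : Set (E N)} {μ : Measure (E N)} (hρ : Dom ρ)
    (hK : KS ρ K) (hμ : Mu ρ K μ) {ψ : E N → ℂ} (hψ : Test (E0 N) ψ) {f : E N → ℂ}
    (hf : Integrable f μ) (he : ∀ᵐ z ∂μ, f z = ∫ c : ℂ, sf ρ (fun k => dzb k ψ) (c • z)) :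
    ∫ z, f z ∂μ = 0 := by
  have hΦ := ((L.t4 N 0 0).2.2.1 ψ hψ).1
  have hinv : ∀ c : ℂ, c ≠ 0 → ∀ z, Pp 0 0 ψ (c • z) = Pp 0 0 ψ z := by
    intro c hc z
    by_cases hz : z = 0
    · rw [hz, smul_zero]
    · simpa using (L.t4 N 0 0).1 ψ c hc z hz
  have hsub : Reg ρ ⊆ E0 N := fun z hz => hz.1
  have s1 : SI ρ fun y => (Pp 0 0 ψ y).re :=
    ⟨reCLM.contDiff.comp_contDiffOn (hΦ.mono hsub), fun c hc z => by simp only [hinv c hc]⟩
  have s2 : SI ρ fun y => (Pp 0 0 ψ y).im :=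
    ⟨imCLM.contDiff.comp_contDiffOn (hΦ.mono hsub), fun c hc z => by simp only [hinv c hc]⟩
  have h1 : ∀ᵐ z ∂μ, f z = (trH ρ (fun y => (Pp 0 0 ψ y).re) z : ℂ) +
      (trH ρ (fun y => (Pp 0 0 ψ y).im) z : ℂ) * I := by
    filter_upwards [he, hμ.supp] with z a b
    have hz := gd_of_mem L hρ hK b.1
    rw [a, line_eq L hρ hψ hz.ne, hess_split L hρ hΦ hz]
  apply Complex.ext
  · rw [← reCLM_apply, ← reCLM.integral_comp_comm hf, zero_re, ← hμ.ann _ s1]
    exact integral_congr_ae (h1.mono fun z hz => by simp [hz])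
  · rw [← imCLM_apply, ← imCLM.integral_comp_comm hf, zero_im, ← hμ.ann _ s2]
    exact integral_congr_ae (h1.mono fun z hz => by simp [hz])

theorem thL_lim (hl : StmtLOG) (s : ℝ) (hs : 0 < s) : ∀ᶠ L : ℕ in atTop, thL L s = 1 := by
  have h0 : Tendsto (fun L : ℕ => (2 * L : ℝ)) atTop atTop :=
    tendsto_natCast_atTop_atTop.const_mul_atTop two_pos
  have h1 : Tendsto (fun L : ℕ => s * Real.exp (2 * L)) atTop atTop :=
    (Real.tendsto_exp_atTop.comp h0).const_mul_atTop hs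
  have h2 : Tendsto (fun L : ℕ => s * Real.exp (-(2 * L))) atTop (𝓝 (s * 0)) :=
    (Real.tendsto_exp_neg_atTop_nhds_zero.comp h0).const_mul s
  rw [mul_zero] at h2
  filter_upwards [h1.eventually_ge_atTop 2, h2.eventually (ge_mem_nhds one_pos)] with L a b
  rw [thL, (hl.2.2.1 _).2.2.2.1 a, (hl.2.2.1 _).2.2.1 b, sub_zero]

theorem s1 (L : Lv0) (hl : StmtLOG) : StmtS1 := by
  intro N ρ K μ hρ hK hμ
  have := hμ.prob
  have hd : ∀ {g : E N → ℂ}, Dk g → ∀ y, DifferentiableAt ℝ g y := fun h y =>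
    h.1.differentiable (by simp) y
  refine ⟨fun γ hγ => ⟨int_sf L hρ hK hμ hγ, fun γ' hγ' => ?_⟩, fun G hG hD => ?_,
    fun T α θ hα hθ => ?_⟩
  · have i1 := int_sf L hρ hK hμ hγ
    have i2 := int_sf L hρ hK hμ hγ'
    have j1 := integral_prod _ i1
    have j2 := integral_prod _ i2
    have j3 := integral_prod _ (i1.add i2)
    have j4 := integral_prod _ (i1.sub i2)
    simp only [Pi.add_apply, Pi.sub_apply] at j1 j2 j3 j4
    simp only [Sf, sf_add ρ (fun k => hd (hγ k) _) (fun k => hd (hγ' k) _),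
      sf_sub ρ (fun k => hd (hγ k) _) (fun k => hd (hγ' k) _)]
    rw [← j1, ← j2, ← j3, ← j4, integral_add i1 i2, integral_sub i1 i2]
    exact ⟨rfl, rfl⟩
  · have i1 := int_sf L hρ hK hμ hD
    obtain ⟨C, -, hC⟩ := hl.2.2.2.2
    have hm : ∀ n : ℕ, Continuous fun p : E N × ℂ => (thL n (‖p.2 • p.1‖ ^ 2) : ℂ) := fun n =>
      continuous_ofReal.comp ((hC n).1.continuous.comp
        ((continuous_snd.smul continuous_fst).norm.pow 2))
    have hb : ∀ (n : ℕ) (s : ℝ), ‖(thL n s : ℂ)‖ ≤ 1 := fun n s => by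
      rw [norm_real, Real.norm_of_nonneg ((hC n).2.1 s).1]
      exact ((hC n).2.1 s).2.1
    have i2 : ∀ n : ℕ, Integrable (fun p : E N × ℂ => (thL n (‖p.2 • p.1‖ ^ 2) : ℂ) *
        sf ρ (fun k => dzb k G) (p.2 • p.1)) (μ.prod volume) := fun n =>
      i1.bdd_mul (hm n).aestronglyMeasurable (Eventually.of_forall fun p => hb n _)
    have z1 : ∀ n : ℕ, ∫ p : E N × ℂ, (thL n (‖p.2 • p.1‖ ^ 2) : ℂ) *
        sf ρ (fun k => dzb k G) (p.2 • p.1) ∂μ.prod volume = 0 := by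
      intro n
      have hψ : Test (E0 N) fun z => (thL n (‖z‖ ^ 2) : ℂ) * G z := by
        have := ((L.t1 N (E0 N) isOpen_E0 (by simp)).2.2.2.1 _ ((hC n).2.2.1 N)).1 G hG.contDiffOn
        simpa only [mul_comm] using this
      rw [integral_prod _ (i2 n)]
      refine test_zero L hρ hK hμ hψ (i2 n).integral_prod_left ?_
      refine hμ.supp.mono fun z hz => integral_congr_ae ?_
      refine (Measure.ae_ne volume (0 : ℂ)).mono fun c hc => ?_
      exact (sf_dzb_rad hG (gd_of_mem L hρ hK (hK.cone.2 c hc z hz.1)) (hC n).1).symm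
    have lim := tendsto_integral_of_dominated_convergence
      (f := fun p : E N × ℂ => sf ρ (fun k => dzb k G) (p.2 • p.1)) _
      (fun n => (i2 n).aestronglyMeasurable) i1.norm
      (fun n => Eventually.of_forall fun p => by
        rw [norm_mul]
        exact mul_le_of_le_one_left (norm_nonneg _) (hb n _))
      ((ae_prod hK hμ).mono fun p hp => by
        have h0 : p.2 • p.1 ≠ 0 := fun h => hK.cone.1 (h ▸ hp.1)
        refine tendsto_const_nhds.congr' ?_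
        refine (thL_lim hl (‖p.2 • p.1‖ ^ 2) (pow_pos (norm_pos_iff.2 h0) 2)).mono fun n hn => ?_
        simp only [hn, ofReal_one, one_mul])
    simp only [z1] at lim
    have j1 := integral_prod _ i1
    rw [Sf, ← j1]
    exact tendsto_nhds_unique lim tendsto_const_nhds |>.symm ▸ rfl
  · rw [Sf, ← integral_mul_const]
    refine integral_congr_ae (hμ.supp.mono fun z hz => ?_)
    have hz0 := (gd_of_mem L hρ hK hz.1).ne
    have hP : ∀ c : ℂ, c ≠ 0 → ∀ j k, PP ρ (c • z) j k = PP ρ z j k := fun c hc =>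
      ((((L.pf N).2.2.2 ρ hρ).2.2.1 z hz0).2.2.2.1 c hc).2.2
    have hH : ∀ l k, Hom (E0 N) (0 - 1) (-1) (dz l (α k)) := fun l k =>
      (((L.pf N).1 (E0 N) 0 (-1) _ isOpen_E0 cone_E0 (hα.hom k)).1 l).1
    beta_reduce
    rw [← integral_complex_ofReal, ← integral_const_mul]
    refine integral_congr_ae ((Measure.ae_ne volume (0 : ℂ)).mono fun c hc => ?_)
    have hy := gd_of_mem L hρ hK (hK.cone.2 c hc z hz.1)
    have h2 : conj c ≠ 0 := by simpa using hc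
    beta_reduce
    rw [sf_rad hy hθ fun k => ContDiffAt.da ((hα.smooth k).contDiffAt (isOpen_E0.mem_nhds hy.ne)),
      sf, hα.hor _ hy.ne, mul_zero, zero_div, sub_zero, norm_smul, hz.2, mul_one]
    simp only [hP c hc, hH _ _ c hc z hz0, zero_sub, zpow_neg_one,
      mul_left_comm _ (c⁻¹ * (conj c)⁻¹), ← Finset.mul_sum]
    rw [ofReal_div, normSq_c]
    field_simp

end

end Pool.Agent.MP_fcd29e_an.H9
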